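import Mathlib
import Pool.Agent.Q35.LO.Stm

/-!
Project LO (MP_1acd66_nt): LO-6, frames of the fibres by the rule of Cramer.
-/

set_option autoImplicit false

namespace Pool.Agent.Q128.LO.FR

open Finset Function
open Pool.Agent.Q35.MM (bx dg S1 S1_finite mem_bx)
open Pool.Agent.Q35.SM (Cof Vs ev)
open Pool.Agent.Q35.LO

section LinAlg

variable {K : Type} [Field K] {k N : ℕ}

/-- The minor of the linear forms `L` in the columns `J`. -/
def dt (L : Fin k → Fin N → K) (J : Fin k → Fin N) : K :=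
  (Matrix.of fun t t' => L t (J t')).det

/-- Cramer vector. -/
def wv (L : Fin k → Fin N → K) (J : Fin k → Fin N) (b : Fin N) (a : Fin N) : K :=
  (if a = b then dt L J else 0) - ∑ t', if a = J t' then dt L (update J t' b) else 0

theorem sum_wv (L : Fin k → Fin N → K) (J : Fin k → Fin N) (b : Fin N) (t : Fin k) :
    ∑ a, L t a * wv L J b a = 0 := by
  have h1 : ∑ a, L t a * wv L J b a =
      L t b * dt L J - ∑ t', L t (J t') * dt L (update J t' b) := by
    unfold wv
    simp only [mul_sub, Finset.sum_sub_distrib, Finset.mul_sum]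
    congr 1
    · simp
    · rw [Finset.sum_comm]
      refine Finset.sum_congr rfl fun t' _ => ?_
      simp
  rw [h1]
  have h2 := congrFun (Matrix.mulVec_cramer (Matrix.of fun t t' => L t (J t')) fun t => L t b) t
  simp only [Pi.smul_apply, smul_eq_mul] at h2
  rw [sub_eq_zero, mul_comm]
  unfold dt
  rw [← h2]
  simp only [Matrix.mulVec, dotProduct, Matrix.of_apply]
  refine Finset.sum_congr rfl fun t' _ => ?_
  congr 1
  rw [Matrix.cramer_apply]
  congr 1
  ext s s'
  rw [Matrix.updateCol_apply, Matrix.of_apply, Matrix.of_apply]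
  by_cases h : s' = t'
  · rw [if_pos h, h, update_self]
  · rw [if_neg h, update_of_ne h]

theorem inj_of_dt {L : Fin k → Fin N → K} {J : Fin k → Fin N} (h : dt L J ≠ 0) :
    Injective J := by
  intro a b hab
  by_contra hne
  apply h
  unfold dt
  apply Matrix.det_zero_of_column_eq hne
  intro t
  simp only [Matrix.of_apply, hab]

theorem wv_self {L : Fin k → Fin N → K} {J : Fin k → Fin N} {b a : Fin N}
    (ha : ∀ t, J t ≠ a) : wv L J b a = if a = b then dt L J else 0 := by
  unfold wv
  rw [Finset.sum_eq_zero, sub_zero]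
  intro t _
  rw [if_neg]
  exact fun h => ha t h.symm

theorem wv_J {L : Fin k → Fin N → K} {J : Fin k → Fin N} (hJ : Injective J) {b : Fin N}
    (hb : ∀ t, J t ≠ b) (t : Fin k) : wv L J b (J t) = - dt L (update J t b) := by
  unfold wv
  rw [if_neg (hb t), zero_sub, Finset.sum_eq_single t]
  · rw [if_pos rfl]
  · intro t' _ hne
    rw [if_neg]
    exact fun h => hne (hJ h).symm
  · intro h
    exact absurd (mem_univ t) h

theorem zero_of_ker {L : Fin k → Fin N → K} {J : Fin k → Fin N} (h : dt L J ≠ 0)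
    (y : Fin N → K) (hy : ∀ t, ∑ a, L t a * y a = 0) (h0 : ∀ a, (∀ t, J t ≠ a) → y a = 0) :
    y = 0 := by
  have hJ := inj_of_dt h
  have h1 : (Matrix.of fun t t' => L t (J t')).mulVec (y ∘ J) = 0 := by
    ext t
    simp only [Matrix.mulVec, dotProduct, Matrix.of_apply, comp_apply, Pi.zero_apply]
    rw [← hy t]
    have h2 : ∑ t', L t (J t') * y (J t') = ∑ a ∈ univ.image J, L t a * y a := by
      rw [Finset.sum_image]
      intro a _ b _ hab
      exact hJ hab
    rw [h2]
    apply Finset.sum_subset (subset_univ _)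
    intro a _ ha
    rw [h0 a, mul_zero]
    intro t' ht'
    apply ha
    rw [mem_image]
    exact ⟨t', mem_univ _, ht'⟩
  have h3 : y ∘ J = 0 := Matrix.eq_zero_of_mulVec_eq_zero h h1
  ext a
  by_cases ha : ∀ t, J t ≠ a
  · exact h0 a ha
  · push Not at ha
    obtain ⟨t, ht⟩ := ha
    have := congrFun h3 t
    simp only [comp_apply, Pi.zero_apply] at this
    rw [ht] at this
    exact this

end LinAlg

section Bounds

variable {K : Type} [Field K] [NumberField K] {ι : Type} [Fintype ι] [DecidableEq ι] {n : ι → ℕ}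

theorem isInt_lf {k : ℕ} {c : Fin k → Cof K n} (hc : ∀ t a, IsIntegral ℤ (c t a)) (j : ι)
    (b : ι → ℕ) (x : Vs K n) (hx : ∀ l, l ≠ j → x l ∈ bx K (n l + 1) (b l)) (t : Fin k)
    (a : Fin (n j + 1)) : IsIntegral ℤ (lf c x j t a) := by
  unfold lf ev
  refine IsIntegral.sum _ fun a' _ => ?_
  refine IsIntegral.mul ?_ ?_
  · rw [Algebra.algebraMap_self, RingHom.id_apply]
    exact hc t a'
  · refine IsIntegral.prod _ fun i _ => ?_
    by_cases hi : i = j
    · subst hi
      rw [update_self, Pi.single_apply]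
      split_ifs
      · exact isIntegral_one
      · exact isIntegral_zero
    · rw [update_of_ne hi]
      have := hx i hi
      rw [mem_bx] at this
      exact (this (a' i)).1

theorem norm_lf {k : ℕ} (c : Fin k → Cof K n) (j : ι)
    (b : ι → ℕ) (x : Vs K n) (hx : ∀ l, l ≠ j → x l ∈ bx K (n l + 1) (b l)) (t : Fin k)
    (a : Fin (n j + 1)) (φ : K →+* ℂ) :
    ‖φ (lf c x j t a)‖ ≤ (∑ a', ‖φ (c t a')‖) * ∏ l ∈ univ.erase j, (b l : ℝ) := by
  unfold lf ev
  rw [map_sum]
  refine (norm_sum_le _ _).trans ?_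
  rw [Finset.sum_mul]
  refine Finset.sum_le_sum fun a' _ => ?_
  rw [map_mul, norm_mul, Algebra.algebraMap_self, RingHom.id_apply, map_prod, norm_prod]
  refine mul_le_mul_of_nonneg_left ?_ (norm_nonneg _)
  rw [← Finset.mul_prod_erase univ _ (mem_univ j)]
  have h1 : ‖φ (update x j (Pi.single a 1) j (a' j))‖ ≤ 1 := by
    rw [update_self, Pi.single_apply]
    split_ifs
    · rw [map_one, norm_one]
    · rw [map_zero, norm_zero]
      exact zero_le_one
  have h2 : ∏ i ∈ univ.erase j, ‖φ (update x j (Pi.single a 1) i (a' i))‖ ≤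
      ∏ l ∈ univ.erase j, (b l : ℝ) := by
    refine Finset.prod_le_prod (fun _ _ => norm_nonneg _) fun i hi => ?_
    have hij := (mem_erase.mp hi).1
    rw [update_of_ne hij]
    have := hx i hij
    rw [mem_bx] at this
    exact (this (a' i)).2 φ
  calc ‖φ (update x j (Pi.single a 1) j (a' j))‖ *
        ∏ i ∈ univ.erase j, ‖φ (update x j (Pi.single a 1) i (a' i))‖
      ≤ 1 * ∏ l ∈ univ.erase j, (b l : ℝ) :=
        mul_le_mul h1 h2 (Finset.prod_nonneg fun _ _ => norm_nonneg _) zero_le_one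
    _ = _ := one_mul _

omit [NumberField K] in
theorem norm_mnr {k : ℕ} (c : Fin k → Cof K n) (j : ι) (x : Vs K n) (J : Fin k → Fin (n j + 1))
    (φ : K →+* ℂ) (T : ℝ) (hT : ∀ t a, ‖φ (lf c x j t a)‖ ≤ T) :
    ‖φ (mnr c x j J)‖ ≤ k.factorial * T ^ k := by
  unfold mnr
  rw [RingHom.map_det]
  have h := Matrix.det_le (A := φ.mapMatrix (Matrix.of fun t t' => lf c x j t (J t')))
    (abv := NormedField.toAbsoluteValue ℂ) (x := T) (by
      intro s s'
      exact hT s (J s'))
  rw [Fintype.card_fin, nsmul_eq_mul] at h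
  exact h

end Bounds

theorem fr : Pool.Agent.Q35.LO.S_FR := by
  classical
  intro K _ _ ι _ _ n k c hc κ hκ
  -- the constant
  obtain ⟨C1, hC1⟩ : ∃ C1 : ℕ, ∀ (t : Fin k) (φ : K →+* ℂ), ∑ a', ‖φ (c t a')‖ ≤ C1 := by
    obtain ⟨C1, hC1⟩ := exists_nat_ge (∑ t : Fin k, ∑ φ : K →+* ℂ, ∑ a', ‖φ (c t a')‖)
    refine ⟨C1, fun t φ => le_trans ?_ hC1⟩
    calc ∑ a', ‖φ (c t a')‖ ≤ ∑ φ : K →+* ℂ, ∑ a', ‖φ (c t a')‖ :=
          Finset.single_le_sum (f := fun φ : K →+* ℂ => ∑ a', ‖φ (c t a')‖)
            (fun _ _ => Finset.sum_nonneg fun _ _ => norm_nonneg _) (mem_univ φ)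
      _ ≤ _ := Finset.single_le_sum (f := fun t => ∑ φ : K →+* ℂ, ∑ a', ‖φ (c t a')‖)
            (fun _ _ => Finset.sum_nonneg fun _ _ => Finset.sum_nonneg fun _ _ => norm_nonneg _)
            (mem_univ t)
  set C : ℕ := k.factorial * (C1 + 1) ^ k with hC
  have hCpos : 1 ≤ C := Nat.one_le_iff_ne_zero.mpr (by positivity)
  refine ⟨κ / C, C, by positivity, hCpos, ?_⟩
  intro j J b x hb hx hJκ
  set P : ℕ := ∏ l ∈ univ.erase j, b l with hP
  have hP1 : 1 ≤ P := Finset.one_le_prod'' hb
  have hPR : (P : ℝ) = ∏ l ∈ univ.erase j, (b l : ℝ) := by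
    rw [hP, Nat.cast_prod]
  rw [← hPR] at hJκ
  have hP1R : (1 : ℝ) ≤ P := by exact_mod_cast hP1
  set L : Fin k → Fin (n j + 1) → K := fun t a => lf c x j t a with hL
  have hdt : ∀ J', dt L J' = mnr c x j J' := fun _ => rfl
  -- the minor is not zero
  have hΔ : dt L J ≠ 0 := by
    intro h0
    obtain ⟨φ⟩ : Nonempty (K →+* ℂ) := inferInstance
    have h1 := hJκ φ
    rw [← hdt, h0, map_zero, norm_zero] at h1
    have h2 : 0 < κ * (P : ℝ) ^ k := by positivity
    linarith
  have hJ := inj_of_dt hΔ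
  -- the bounds for all the minors
  have hint : ∀ J', IsIntegral ℤ (dt L J') := by
    intro J'
    unfold dt
    apply IsIntegral.det
    intro s s'
    exact isInt_lf hc j b x hx s (J' s')
  have hnorm : ∀ J' (φ : K →+* ℂ), ‖φ (dt L J')‖ ≤ ((C * P ^ k : ℕ) : ℝ) := by
    intro J' φ
    rw [hdt]
    refine (norm_mnr c j x J' φ (((C1 + 1 : ℕ) : ℝ) * P) ?_).trans (le_of_eq ?_)
    · intro t a
      refine (norm_lf c j b x hx t a φ).trans ?_
      rw [hPR]
      refine mul_le_mul_of_nonneg_right ((hC1 t φ).trans ?_)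
        (Finset.prod_nonneg fun _ _ => Nat.cast_nonneg _)
      push_cast
      linarith
    · rw [hC]
      push_cast
      rw [mul_pow]
      ring
  -- the complement
  set S : Finset (Fin (n j + 1)) := (univ.image J)ᶜ with hS
  have hScard : S.card = n j + 1 - k := by
    rw [hS, card_compl, card_image_of_injective _ hJ, Fintype.card_fin, card_univ, Fintype.card_fin]
  set p : Fin (n j + 1 - k) → Fin (n j + 1) := fun i => S.orderEmbOfFin hScard i with hp
  have hpS : ∀ i, p i ∈ S := fun i => S.orderEmbOfFin_mem hScard i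
  have hpJ : ∀ i t, J t ≠ p i := by
    intro i t h
    have := hpS i
    rw [hS, mem_compl] at this
    apply this
    rw [← h]
    exact mem_image_of_mem _ (mem_univ _)
  have hpinj : Injective p := (S.orderEmbOfFin hScard).injective
  have hpsurj : ∀ a, (∀ t, J t ≠ a) → ∃ i, p i = a := by
    intro a ha
    have haS : a ∈ S := by
      rw [hS, mem_compl, mem_image]
      rintro ⟨t, -, ht⟩
      exact ha t ht
    have := S.range_orderEmbOfFin hScard
    have h2 : a ∈ Set.range (S.orderEmbOfFin hScard) := by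
      rw [this]
      exact haS
    exact h2
  refine ⟨fun i => wv L J (p i), p, dt L J, ?_, ?_, ?_, ?_, ?_⟩
  · intro i t
    exact sum_wv L J (p i) t
  · intro y hy
    have hker : y - ∑ i, (y (p i) / dt L J) • wv L J (p i) = 0 := by
      apply zero_of_ker hΔ
      · intro t
        have h1 : ∑ a, L t a * y a = 0 := hy t
        have h2 : ∑ a, L t a * (y - ∑ i, (y (p i) / dt L J) • wv L J (p i)) a =
            ∑ a, L t a * y a - ∑ i, (y (p i) / dt L J) * ∑ a, L t a * wv L J (p i) a := by
          simp only [Pi.sub_apply, mul_sub, Finset.sum_sub_distrib, Finset.sum_apply,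
            Pi.smul_apply, smul_eq_mul, Finset.mul_sum]
          congr 1
          rw [Finset.sum_comm]
          refine Finset.sum_congr rfl fun i _ => Finset.sum_congr rfl fun a _ => ?_
          ring
        rw [h2, h1, zero_sub, neg_eq_zero]
        refine Finset.sum_eq_zero fun i _ => ?_
        rw [sum_wv, mul_zero]
      · intro a ha
        obtain ⟨i, rfl⟩ := hpsurj a ha
        simp only [Pi.sub_apply, Finset.sum_apply, Pi.smul_apply, smul_eq_mul]
        rw [Finset.sum_eq_single i]
        · rw [wv_self (hpJ i), if_pos rfl, div_mul_cancel₀ _ hΔ, sub_self]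
        · intro i' _ hne
          rw [wv_self (hpJ i), if_neg, mul_zero]
          exact fun h => hne (hpinj h).symm
        · intro h
          exact absurd (mem_univ i) h
    rw [sub_eq_zero] at hker
    rw [hker]
    refine Submodule.sum_mem _ fun i _ => Submodule.smul_mem _ _ ?_
    exact Submodule.subset_span ⟨i, rfl⟩
  · intro i
    rw [mem_bx]
    intro a
    by_cases ha : ∀ t, J t ≠ a
    · show wv L J (p i) a ∈ _
      rw [wv_self ha]
      split_ifs
      · exact ⟨hint J, fun φ => hnorm J φ⟩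
      · refine ⟨isIntegral_zero, fun φ => ?_⟩
        rw [map_zero, norm_zero]
        exact Nat.cast_nonneg _
    · push Not at ha
      obtain ⟨t, rfl⟩ := ha
      show wv L J (p i) (J t) ∈ _
      rw [wv_J hJ (hpJ i)]
      refine ⟨(hint _).neg, fun φ => ?_⟩
      rw [map_neg, norm_neg]
      exact hnorm _ φ
  · intro i i'
    show wv L J (p i) (p i') = _
    rw [wv_self (hpJ i')]
    by_cases h : i = i'
    · rw [if_pos h, if_pos (by rw [h])]
    · rw [if_neg h, if_neg]
      exact fun h' => h (hpinj h').symm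
  · intro φ
    have h1 := hJκ φ
    rw [← hdt] at h1
    refine le_trans (le_of_eq ?_) h1
    have hC0 : (C : ℝ) ≠ 0 := by
      have : (1 : ℝ) ≤ C := by exact_mod_cast hCpos
      linarith
    have e1 : ((C * P ^ k : ℕ) : ℝ) = (C : ℝ) * (P : ℝ) ^ k := by push_cast; ring
    calc κ / (C : ℝ) * ((C * P ^ k : ℕ) : ℝ) = κ / (C : ℝ) * ((C : ℝ) * (P : ℝ) ^ k) := by rw [e1]
      _ = κ * (P : ℝ) ^ k := by
        rw [← mul_assoc, div_mul_cancel₀ _ hC0]

end Pool.Agent.Q128.LO.FR
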