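import Mathlib
import Pool.Agent.Q35.LO.Stm

/-!
Project LO (MP_1acd66_nt): LO-5, few points have small height.
-/

set_option autoImplicit false

namespace Pool.Agent.Q128.LO.SMALL

open Finset Function
open Pool.Agent.Q35.MM (bx dg S1 S1_finite mem_bx)
open Pool.Agent.Q35.LO

variable {K : Type} [Field K] [NumberField K]

theorem bx_mono {m b b' : ℕ} (h : b ≤ b') : bx K m b ⊆ bx K m b' := by
  intro x hx
  rw [mem_bx] at hx ⊢
  intro a
  refine ⟨(hx a).1, fun φ => ((hx a).2 φ).trans ?_⟩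
  exact_mod_cast h

theorem nu_mono {N : ℕ} (V : Submodule K (Fin N → K)) {b b' : ℕ} (h : b ≤ b') :
    nu K N V b ≤ nu K N V b' := by
  classical
  unfold nu
  exact card_le_card (filter_subset_filter _ (bx_mono h))

open Classical in
/-- The points of height about `(2 ^ i) ^ d`. -/
noncomputable def XX (N : ℕ) (V : Submodule K (Fin N → K)) (B i : ℕ) : Finset (Fin N → K) :=
  (bx K N B).filter fun x => x ∈ V ∧ x ≠ 0 ∧ Height.mulHeight x ≤ ((2 : ℝ) ^ i) ^ dg K ∧
    ((2 : ℝ) ^ i) ^ dg K ≤ 2 ^ dg K * Height.mulHeight x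

theorem card_XX (hREP : S_REP) {c : ℕ}
    (hc : ∀ (m : ℕ) (x : Fin m → K), x ≠ 0 →
    ∀ B : ℕ, 1 ≤ B → Height.mulHeight x ≤ (B : ℝ) ^ dg K → ∃ t : K, t ≠ 0 ∧ t • x ∈ bx K m (c * B))
    (N : ℕ) (V : Submodule K (Fin N → K)) (B i : ℕ) (hB : 1 ≤ B) :
    ((XX N V B i).card : ℝ) ≤ (6 * B / 2 ^ i) ^ dg K * (nu K N V (c * 2 ^ i) : ℝ) := by
  classical
  have key : ∀ x : Fin N → K, ∃ t : K, x ∈ XX N V B i → t ≠ 0 ∧ t • x ∈ bx K N (c * 2 ^ i) := by
    intro x
    by_cases hx : x ∈ XX N V B i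
    · have hx' := hx
      rw [XX, mem_filter] at hx
      obtain ⟨-, -, h0, h1, -⟩ := hx
      obtain ⟨t, ht0, ht⟩ := hc N x h0 (2 ^ i) Nat.one_le_two_pow (by push_cast; exact h1)
      exact ⟨t, fun _ => ⟨ht0, ht⟩⟩
    · exact ⟨0, fun h => absurd h hx⟩
  choose t ht using key
  set Y : Finset (Fin N → K) := (bx K N (c * 2 ^ i)).filter fun x => x ∈ V with hY
  have hmap : ∀ x ∈ XX N V B i, t x • x ∈ Y := by
    intro x hx
    rw [hY, mem_filter]
    refine ⟨(ht x hx).2, V.smul_mem _ ?_⟩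
    rw [XX, mem_filter] at hx
    exact hx.2.1
  have hfib : ∀ y ∈ Y, ((XX N V B i).filter fun x => t x • x = y).card ≤
      ⌊(6 * (B : ℝ) / 2 ^ i) ^ dg K⌋₊ := by
    intro y hy
    apply Nat.le_floor
    rcases ((XX N V B i).filter fun x => t x • x = y).eq_empty_or_nonempty with he | ⟨x0, hx0⟩
    · rw [he, card_empty, Nat.cast_zero]
      positivity
    rw [mem_filter] at hx0
    obtain ⟨hx0, hx0y⟩ := hx0
    have ht0 := (ht x0 hx0).1
    have hx0' := hx0
    rw [XX, mem_filter] at hx0'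
    obtain ⟨-, -, hx00, -, hH⟩ := hx0'
    have hy0 : y ≠ 0 := by
      rw [← hx0y]
      exact smul_ne_zero ht0 hx00
    obtain ⟨hfin, hcard⟩ := hREP K N y hy0 B hB
    have hHy : Height.mulHeight y = Height.mulHeight x0 := by
      rw [← hx0y]
      exact Height.mulHeight_smul_eq_mulHeight x0 ht0
    have hle : ((XX N V B i).filter fun x => t x • x = y).card ≤
        {s : K | s ≠ 0 ∧ s • y ∈ bx K N B}.ncard := by
      rw [Set.ncard_eq_toFinset_card _ hfin]
      refine Finset.card_le_card_of_injOn (fun x => (t x)⁻¹) ?_ ?_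
      · intro x hx
        rw [Finset.mem_coe, mem_filter] at hx
        obtain ⟨hx, hxy⟩ := hx
        have htx := (ht x hx).1
        rw [Finset.mem_coe, Set.Finite.mem_toFinset]
        refine ⟨inv_ne_zero htx, ?_⟩
        rw [← hxy, inv_smul_smul₀ htx]
        rw [XX, mem_filter] at hx
        exact hx.1
      · intro x hx x' hx' h
        rw [Finset.mem_coe, mem_filter] at hx hx'
        have h1 : t x = t x' := inv_injective h
        have htx := (ht x hx.1).1
        have h2 : t x • x = t x • x' := by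
          rw [hx.2, h1, hx'.2]
        exact smul_right_injective _ htx h2
    have hp : (0 : ℝ) < (2 ^ i) ^ dg K := by positivity
    have h3 : (({s : K | s ≠ 0 ∧ s • y ∈ bx K N B}.ncard : ℕ) : ℝ) * (((2 : ℝ) ^ i) ^ dg K) ≤
        2 ^ dg K * (3 ^ dg K * (B : ℝ) ^ dg K) := by
      calc (({s : K | s ≠ 0 ∧ s • y ∈ bx K N B}.ncard : ℕ) : ℝ) * (((2 : ℝ) ^ i) ^ dg K)
          ≤ (({s : K | s ≠ 0 ∧ s • y ∈ bx K N B}.ncard : ℕ) : ℝ) *
            (2 ^ dg K * Height.mulHeight y) := by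
            rw [hHy]
            exact mul_le_mul_of_nonneg_left hH (Nat.cast_nonneg _)
        _ = 2 ^ dg K * ((({s : K | s ≠ 0 ∧ s • y ∈ bx K N B}.ncard : ℕ) : ℝ) *
            Height.mulHeight y) := by ring
        _ ≤ _ := mul_le_mul_of_nonneg_left hcard (by positivity)
    have h4 : (({s : K | s ≠ 0 ∧ s • y ∈ bx K N B}.ncard : ℕ) : ℝ) ≤
        (6 * (B : ℝ) / 2 ^ i) ^ dg K := by
      rw [div_pow, le_div_iff₀ hp]
      refine h3.trans (le_of_eq ?_)
      rw [← mul_assoc, ← mul_pow, ← mul_pow]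
      norm_num
    exact (Nat.cast_le.mpr hle).trans h4
  have h5 := Finset.card_le_mul_card_image_of_maps_to hmap _ hfib
  have h6 : (((XX N V B i).card : ℕ) : ℝ) ≤
      ((⌊(6 * (B : ℝ) / 2 ^ i) ^ dg K⌋₊ * Y.card : ℕ) : ℝ) := Nat.cast_le.mpr h5
  refine h6.trans ?_
  rw [Nat.cast_mul]
  have h7 : Y.card = nu K N V (c * 2 ^ i) := rfl
  rw [h7]
  exact mul_le_mul_of_nonneg_right (Nat.floor_le (by positivity)) (Nat.cast_nonneg _)

theorem sum_pow_le (I : Finset ℕ) (T : ℝ) (hT : 0 ≤ T) (h : ∀ i ∈ I, (2 : ℝ) ^ i ≤ T) :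
    ∑ i ∈ I, (2 : ℝ) ^ i ≤ 2 * T := by
  rcases I.eq_empty_or_nonempty with he | hne
  · rw [he, sum_empty]
    positivity
  have h1 : I ⊆ range (I.max' hne + 1) := by
    intro i hi
    rw [mem_range]
    have := I.le_max' i hi
    omega
  calc ∑ i ∈ I, (2 : ℝ) ^ i ≤ ∑ i ∈ range (I.max' hne + 1), (2 : ℝ) ^ i :=
        sum_le_sum_of_subset_of_nonneg h1 fun _ _ _ => by positivity
    _ = (2 ^ (I.max' hne + 1) - 1) / (2 - 1) := geom_sum_eq (by norm_num) _
    _ ≤ 2 * 2 ^ (I.max' hne) := by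
        rw [pow_succ]
        have : (0 : ℝ) ≤ 2 ^ (I.max' hne) := by positivity
        linarith
    _ ≤ 2 * T := by
        have := h _ (I.max'_mem hne)
        linarith

theorem sum_inv_le (I : Finset ℕ) : ∑ i ∈ I, ((2 : ℝ) ^ i)⁻¹ ≤ 2 := by
  have h1 : ∀ i ∈ I, ((2 : ℝ) ^ i)⁻¹ = (1 / 2 : ℝ) ^ i := by
    intro i _
    rw [one_div, inv_pow]
  rw [sum_congr rfl h1]
  calc ∑ i ∈ I, (1 / 2 : ℝ) ^ i ≤ ∑' i : ℕ, (1 / 2 : ℝ) ^ i :=
        summable_geometric_two.sum_le_tsum I fun _ _ => by positivity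
    _ = 2 := tsum_geometric_two

theorem small (hREP : Pool.Agent.Q35.LO.S_REP) (hREV : Pool.Agent.Q35.LO.S_REV)
    (hMK : Pool.Agent.Q35.MM.S_MK) : Pool.Agent.Q35.LO.S_SMALL := by
  classical
  intro K _ _ N r κ ε hr hκ hε
  obtain ⟨c, hc1, hc⟩ := hMK K
  obtain ⟨C1, hC10, hC1⟩ := hREV K N r κ (by omega) hκ
  have hd : 1 ≤ dg K := Module.finrank_pos
  have hcR : (1 : ℝ) ≤ c := by exact_mod_cast hc1
  set D : ℝ := (C1 + 1) * 6 ^ dg K with hD
  have hDpos : 0 < D := by positivity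
  set E : ℝ := D * (c : ℝ) ^ (dg K * r) with hE
  have hEpos : 0 < E := by positivity
  refine ⟨min (1 / (2 * c)) (ε / (8 * E)), max 1 (4 * D / ε), ?_, ?_, ?_⟩
  · refine lt_min (by positivity) (by positivity)
  · exact lt_of_lt_of_le one_pos (le_max_left _ _)
  set η : ℝ := min (1 / (2 * c)) (ε / (8 * E)) with hη
  set C : ℝ := max 1 (4 * D / ε) with hC
  have hηpos : 0 < η := lt_min (by positivity) (by positivity)
  have hη1 : η ≤ 1 / (2 * c) := min_le_left _ _
  have hη2 : η ≤ ε / (8 * E) := min_le_right _ _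
  have hCge : 1 ≤ C := le_max_left _ _
  have hCge2 : 4 * D / ε ≤ C := le_max_right _ _
  have hCpos : 0 < C := lt_of_lt_of_le one_pos hCge
  intro V W B hW hF hWB
  have hWR : (1 : ℝ) ≤ W := by exact_mod_cast hW
  have hBR : (1 : ℝ) ≤ B := by
    refine le_trans ?_ hWB
    have h1 : (1 : ℝ) ≤ (W : ℝ) ^ 2 := one_le_pow₀ hWR
    calc (1 : ℝ) = 1 * 1 := by ring
      _ ≤ C * (W : ℝ) ^ 2 := mul_le_mul hCge h1 zero_le_one hCpos.le
  have hB : 1 ≤ B := by exact_mod_cast hBR
  have hB0 : (0 : ℝ) < B := by linarith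
  have hWBR : (W : ℝ) ≤ B := by
    refine le_trans ?_ hWB
    calc (W : ℝ) = 1 * W := by ring
      _ ≤ C * (W : ℝ) ^ 2 := by
        refine mul_le_mul hCge ?_ (by positivity) hCpos.le
        nlinarith
  have hWB' : W ≤ B := by exact_mod_cast hWBR
  -- the bound for `ν`
  have hν : ∀ i : ℕ, (2 : ℝ) ^ i ≤ 2 * η * B →
      (nu K N V (c * 2 ^ i) : ℝ) * (B : ℝ) ^ (dg K * r) ≤
        C1 * (((c : ℝ) * 2 ^ i) ^ (dg K * r) + (W : ℝ) ^ (dg K * r)) * (nu K N V B : ℝ) := by
    intro i hi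
    have hci : c * 2 ^ i ≤ B := by
      have h1 : (c : ℝ) * 2 ^ i ≤ B := by
        calc (c : ℝ) * 2 ^ i ≤ c * (2 * η * B) := mul_le_mul_of_nonneg_left hi (by positivity)
          _ = (2 * c * η) * B := by ring
          _ ≤ 1 * B := by
            refine mul_le_mul_of_nonneg_right ?_ hB0.le
            calc 2 * c * η ≤ 2 * c * (1 / (2 * c)) :=
                  mul_le_mul_of_nonneg_left hη1 (by positivity)
              _ = 1 := by field_simp
          _ = B := one_mul _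
      exact_mod_cast h1
    rcases le_total W (c * 2 ^ i) with hcase | hcase
    · have h2 := hC1 V W hW hF (c * 2 ^ i) B hcase hci
      push_cast at h2
      refine h2.trans ?_
      refine mul_le_mul_of_nonneg_right ?_ (Nat.cast_nonneg _)
      refine mul_le_mul_of_nonneg_left ?_ hC10
      have : (0 : ℝ) ≤ (W : ℝ) ^ (dg K * r) := by positivity
      linarith
    · have h2 := hC1 V W hW hF W B le_rfl hWB'
      have h3 : (nu K N V (c * 2 ^ i) : ℝ) ≤ (nu K N V W : ℝ) :=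
        Nat.cast_le.mpr (nu_mono V hcase)
      calc (nu K N V (c * 2 ^ i) : ℝ) * (B : ℝ) ^ (dg K * r)
          ≤ (nu K N V W : ℝ) * (B : ℝ) ^ (dg K * r) :=
            mul_le_mul_of_nonneg_right h3 (by positivity)
        _ ≤ _ := h2
        _ ≤ _ := by
          refine mul_le_mul_of_nonneg_right ?_ (Nat.cast_nonneg _)
          refine mul_le_mul_of_nonneg_left ?_ hC10
          have : (0 : ℝ) ≤ ((c : ℝ) * 2 ^ i) ^ (dg K * r) := by positivity
          linarith
  have hη' : 2 * η ≤ 1 := by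
    have h1 : 1 / (2 * (c : ℝ)) ≤ 1 / 2 := by
      apply one_div_le_one_div_of_le (by norm_num)
      linarith
    linarith
  -- the bound for one scale
  have hsc : ∀ i : ℕ, (2 : ℝ) ^ i ≤ 2 * η * B →
      ((XX N V B i).card : ℝ) ≤
        (E * (2 ^ i / B) + D / C * ((2 : ℝ) ^ i)⁻¹) * (nu K N V B : ℝ) := by
    intro i hi
    have h1 := card_XX hREP (hc) N V B i hB
    have h2 := hν i hi
    have hu1 : (1 : ℝ) ≤ 2 ^ i := one_le_pow₀ (by norm_num)
    have huB : (2 : ℝ) ^ i ≤ B := by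
      refine hi.trans ?_
      calc 2 * η * B ≤ 1 * B := mul_le_mul_of_nonneg_right hη' hB0.le
        _ = B := one_mul _
    have hBp : (0 : ℝ) < (B : ℝ) ^ (dg K * r) := by positivity
    have h3 : (nu K N V (c * 2 ^ i) : ℝ) ≤
        C1 * (((c : ℝ) * 2 ^ i) ^ (dg K * r) + (W : ℝ) ^ (dg K * r)) * (nu K N V B : ℝ) /
          (B : ℝ) ^ (dg K * r) := by
      rw [le_div_iff₀ hBp]
      exact h2
    refine h1.trans ?_
    refine (mul_le_mul_of_nonneg_left h3 (by positivity)).trans ?_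
    obtain ⟨s, rfl⟩ : ∃ s, r = s + 2 := ⟨r - 2, by omega⟩
    obtain ⟨e, he⟩ : ∃ e, dg K = e + 1 := ⟨dg K - 1, by omega⟩
    -- term A
    have hA : (6 * (B : ℝ) / 2 ^ i) ^ dg K * (((c : ℝ) * 2 ^ i) ^ (dg K * (s + 2)) /
        (B : ℝ) ^ (dg K * (s + 2))) ≤ 6 ^ dg K * (c : ℝ) ^ (dg K * (s + 2)) * (2 ^ i / B) := by
      have h4 : (6 * (B : ℝ) / 2 ^ i) ^ dg K * (((c : ℝ) * 2 ^ i) ^ (dg K * (s + 2)) /
          (B : ℝ) ^ (dg K * (s + 2))) =
          6 ^ dg K * (c : ℝ) ^ (dg K * (s + 2)) * ((2 ^ i / B) ^ (dg K * (s + 1))) := by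
        rw [div_pow, mul_pow, mul_pow, div_pow]
        have e1 : dg K * (s + 2) = dg K * (s + 1) + dg K := by ring
        rw [e1, pow_add, pow_add, pow_add]
        field_simp
      rw [h4]
      refine mul_le_mul_of_nonneg_left ?_ (by positivity)
      have h5 : (2 : ℝ) ^ i / B ≤ 1 := by
        rw [div_le_one hB0]
        exact huB
      exact pow_le_of_le_one (by positivity) h5 (by rw [he]; positivity)
    have hBt : (6 * (B : ℝ) / 2 ^ i) ^ dg K * ((W : ℝ) ^ (dg K * (s + 2)) /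
        (B : ℝ) ^ (dg K * (s + 2))) ≤ 6 ^ dg K * (1 / C * ((2 : ℝ) ^ i)⁻¹) := by
      have h4 : (6 * (B : ℝ) / 2 ^ i) ^ dg K * ((W : ℝ) ^ (dg K * (s + 2)) /
          (B : ℝ) ^ (dg K * (s + 2))) =
          6 ^ dg K * ((W : ℝ) ^ (dg K * (s + 2)) / (B : ℝ) ^ (dg K * (s + 1)) *
            (((2 : ℝ) ^ i)⁻¹) ^ dg K) := by
        rw [div_pow, mul_pow]
        have e1 : dg K * (s + 2) = dg K * (s + 1) + dg K := by ring
        have e2 : (B : ℝ) ^ (dg K * (s + 2)) = (B : ℝ) ^ (dg K * (s + 1)) * (B : ℝ) ^ dg K := by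
          rw [e1, pow_add]
        rw [e2, inv_pow]
        field_simp
      rw [h4]
      refine mul_le_mul_of_nonneg_left ?_ (by positivity)
      refine mul_le_mul ?_ ?_ (by positivity) (by positivity)
      · have h5 : (W : ℝ) ^ (dg K * (s + 2)) ≤ ((W : ℝ) ^ 2) ^ (dg K * (s + 1)) := by
          rw [← pow_mul]
          apply pow_le_pow_right₀ hWR
          nlinarith
        have h6 : (W : ℝ) ^ 2 / B ≤ 1 / C := by
          rw [div_le_div_iff₀ hB0 hCpos]
          linarith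
        have h7 : (1 : ℝ) / C ≤ 1 := by
          rw [div_le_one hCpos]
          exact hCge
        calc (W : ℝ) ^ (dg K * (s + 2)) / (B : ℝ) ^ (dg K * (s + 1))
            ≤ ((W : ℝ) ^ 2) ^ (dg K * (s + 1)) / (B : ℝ) ^ (dg K * (s + 1)) :=
              div_le_div_of_nonneg_right h5 (by positivity)
          _ = ((W : ℝ) ^ 2 / B) ^ (dg K * (s + 1)) := by rw [div_pow]
          _ ≤ (1 / C) ^ (dg K * (s + 1)) := pow_le_pow_left₀ (by positivity) h6 _
          _ ≤ 1 / C := pow_le_of_le_one (by positivity) h7 (by rw [he]; positivity)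
      · exact pow_le_of_le_one (by positivity) (inv_le_one_of_one_le₀ hu1) (by rw [he]; positivity)
    have hνB : (0 : ℝ) ≤ (nu K N V B : ℝ) := Nat.cast_nonneg _
    calc (6 * (B : ℝ) / 2 ^ i) ^ dg K * (C1 * (((c : ℝ) * 2 ^ i) ^ (dg K * (s + 2)) +
          (W : ℝ) ^ (dg K * (s + 2))) * (nu K N V B : ℝ) / (B : ℝ) ^ (dg K * (s + 2)))
        = C1 * ((6 * (B : ℝ) / 2 ^ i) ^ dg K * (((c : ℝ) * 2 ^ i) ^ (dg K * (s + 2)) /
            (B : ℝ) ^ (dg K * (s + 2))) + (6 * (B : ℝ) / 2 ^ i) ^ dg K *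
            ((W : ℝ) ^ (dg K * (s + 2)) / (B : ℝ) ^ (dg K * (s + 2)))) * (nu K N V B : ℝ) := by
          ring
      _ ≤ (C1 + 1) * (6 ^ dg K * (c : ℝ) ^ (dg K * (s + 2)) * (2 ^ i / B) +
            6 ^ dg K * (1 / C * ((2 : ℝ) ^ i)⁻¹)) * (nu K N V B : ℝ) := by
          refine mul_le_mul_of_nonneg_right ?_ hνB
          refine mul_le_mul (by linarith) (add_le_add hA hBt) (by positivity) (by positivity)
      _ = (E * (2 ^ i / B) + D / C * ((2 : ℝ) ^ i)⁻¹) * (nu K N V B : ℝ) := by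
          rw [hE, hD]
          ring
  -- the union of the scales
  set I : Finset ℕ := (range (B + 1)).filter fun i => (2 : ℝ) ^ i ≤ 2 * η * B with hI
  have hsub : ((bx K N B).filter fun x => x ∈ V ∧ x ≠ 0 ∧
      Height.mulHeight x < (η * B) ^ dg K) ⊆ I.biUnion fun i => XX N V B i := by
    intro x hx
    rw [mem_filter] at hx
    obtain ⟨hxB, hxV, hx0, hxH⟩ := hx
    have hH1 : 1 ≤ Height.mulHeight x := Height.one_le_mulHeight x
    have hηB : 1 < η * B := by
      by_contra hcon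
      have h1 : (η * B) ^ dg K ≤ 1 := pow_le_one₀ (by positivity) (not_lt.mp hcon)
      linarith
    have hex : ∃ i : ℕ, Height.mulHeight x ≤ ((2 : ℝ) ^ i) ^ dg K := by
      obtain ⟨i, hi⟩ := pow_unbounded_of_one_lt (Height.mulHeight x) (by norm_num : (1 : ℝ) < 2)
      refine ⟨i, hi.le.trans ?_⟩
      exact le_self_pow₀ (one_le_pow₀ (by norm_num)) (by omega)
    set i := Nat.find hex with hidef
    have hi := Nat.find_spec hex
    rw [← hidef] at hi
    have hmem : (2 : ℝ) ^ i ≤ 2 * η * B ∧ ((2 : ℝ) ^ i) ^ dg K ≤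
        2 ^ dg K * Height.mulHeight x := by
      rcases Nat.eq_zero_or_pos i with h0 | hpos
      · rw [h0, pow_zero, one_pow]
        refine ⟨by linarith, ?_⟩
        calc (1 : ℝ) = 1 * 1 := by ring
          _ ≤ 2 ^ dg K * Height.mulHeight x :=
            mul_le_mul (one_le_pow₀ (by norm_num)) hH1 zero_le_one (by positivity)
      · have hlt := Nat.find_min hex (m := i - 1) (by omega)
        rw [not_le] at hlt
        have e1 : (2 : ℝ) ^ i = 2 * 2 ^ (i - 1) := by
          rw [← pow_succ']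
          congr 1
          omega
        constructor
        · have h1 : ((2 : ℝ) ^ (i - 1)) ^ dg K < (η * B) ^ dg K := hlt.trans hxH
          have h2 : (2 : ℝ) ^ (i - 1) < η * B := lt_of_pow_lt_pow_left₀ _ (by positivity) h1
          rw [e1]
          linarith
        · rw [e1, mul_pow]
          exact mul_le_mul_of_nonneg_left hlt.le (by positivity)
    rw [mem_biUnion]
    refine ⟨i, ?_, ?_⟩
    · rw [hI, mem_filter, mem_range]
      refine ⟨?_, hmem.1⟩
      have h1 : (2 : ℝ) ^ i ≤ B := by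
        refine hmem.1.trans ?_
        calc 2 * η * B ≤ 1 * B := mul_le_mul_of_nonneg_right hη' hB0.le
          _ = B := one_mul _
      have h2 : 2 ^ i ≤ B := by exact_mod_cast h1
      have h3 : i < 2 ^ i := Nat.lt_two_pow_self
      omega
    · rw [XX, mem_filter]
      exact ⟨hxB, hxV, hx0, hi, hmem.2⟩
  have hcard := (card_le_card hsub).trans card_biUnion_le
  have hcardR : ((((bx K N B).filter fun x => x ∈ V ∧ x ≠ 0 ∧
      Height.mulHeight x < (η * B) ^ dg K).card : ℕ) : ℝ) ≤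
      ∑ i ∈ I, ((XX N V B i).card : ℝ) := by
    have := (Nat.cast_le (α := ℝ)).mpr hcard
    rw [Nat.cast_sum] at this
    exact this
  refine hcardR.trans ?_
  have hIi : ∀ i ∈ I, (2 : ℝ) ^ i ≤ 2 * η * B := fun i hi => (mem_filter.mp hi).2
  have hνB : (0 : ℝ) ≤ (nu K N V B : ℝ) := Nat.cast_nonneg _
  calc ∑ i ∈ I, ((XX N V B i).card : ℝ)
      ≤ ∑ i ∈ I, (E * (2 ^ i / B) + D / C * ((2 : ℝ) ^ i)⁻¹) * (nu K N V B : ℝ) :=
        sum_le_sum fun i hi => hsc i (hIi i hi)
    _ = (E / B * ∑ i ∈ I, (2 : ℝ) ^ i + D / C * ∑ i ∈ I, ((2 : ℝ) ^ i)⁻¹) *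
        (nu K N V B : ℝ) := by
        rw [← sum_mul, sum_add_distrib, mul_sum, mul_sum]
        congr 2
        refine sum_congr rfl fun i _ => ?_
        ring
    _ ≤ (E / B * (2 * (2 * η * B)) + D / C * 2) * (nu K N V B : ℝ) := by
        refine mul_le_mul_of_nonneg_right ?_ hνB
        refine add_le_add ?_ ?_
        · exact mul_le_mul_of_nonneg_left (sum_pow_le I _ (by positivity) hIi) (by positivity)
        · exact mul_le_mul_of_nonneg_left (sum_inv_le I) (by positivity)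
    _ ≤ ε * (nu K N V B : ℝ) := by
        refine mul_le_mul_of_nonneg_right ?_ hνB
        have h1 : E / B * (2 * (2 * η * B)) = 4 * E * η := by
          field_simp
          ring
        have h2 : 4 * E * η ≤ ε / 2 := by
          calc 4 * E * η ≤ 4 * E * (ε / (8 * E)) := mul_le_mul_of_nonneg_left hη2 (by positivity)
            _ = ε / 2 := by
              field_simp
              norm_num
        have h3 : D / C * 2 ≤ ε / 2 := by
          rw [div_mul_eq_mul_div, div_le_iff₀ hCpos]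
          rw [div_le_iff₀ hε] at hCge2
          linarith
        rw [h1]
        linarith

end Pool.Agent.Q128.LO.SMALL
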